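import Mathlib
import Pool.Agent.Lib.P6ac95e.Shift

/-!
# The critical Ising projection to a line is a regular g-measure

The proof is as in `CriticalLineGibbs`, with the half-line of past sites frozen instead of the
whole line: the magnetisation at the tip of a free slit in a large box with plus boundary
condition tends to zero at the critical point.
-/

namespace Pool.Agent.Results.MP_6ac95e_pr.CriticalLineGMeasure

open MeasureTheory
open Pool.Agent.P6ac95e

/-- The finite-volume Ising measures with plus boundary condition at the critical point converge
to a measure `μ` (the plus phase), and the marginal of `μ` on the line `ℤ × {0}` is a regular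
g-measure. -/
theorem result :
    ∃ μ : ProbabilityMeasure (ℤ × ℤ → Bool),
      IsPlusPhase βc μ ∧ IsRegularGMeasure (lineMarginal μ) := by
  obtain ⟨μ, hμ⟩ := exists_plusPhase βc_pos.le
  exact ⟨μ, hμ, line_regular βc_pos sinh_βc μ hμ⟩

end Pool.Agent.Results.MP_6ac95e_pr.CriticalLineGMeasure
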