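import Mathlib
import Pool.Agent.Lib.P6ac95e.Line2
import Pool.Agent.Lib.P6ac95e.Plus

/-!
# The critical Ising projection to a line is a Gibbs measure

Outline of the proof.

* A correlation inequality of Ding, Song and Sun (proved here by induction on the number of
  sites): the influence of a boundary perturbation on a magnetisation is largest in zero field
  (`mag_dss`).
* The magnetisation next to a free line inside a large box with plus boundary condition tends to
  zero at the critical point (`crit_bound`): the square of the Kadanoff-Ceva observable has a
  discrete primitive `H`, which at criticality is subharmonic off the line with a strict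
  inequality next to the line, and the plane is recurrent.
* Hence the finite-volume conditional weights of the line spins converge uniformly in the
  boundary condition, which gives a quasilocal uniformly non-null specification.
-/

namespace Pool.Agent.Results.MP_6ac95e_pr.CriticalLineGibbs

open MeasureTheory
open Pool.Agent.P6ac95e

/-- The finite-volume Ising measures with plus boundary condition at the critical point converge
to a measure `μ` (the plus phase), and the marginal of `μ` on the line `ℤ × {0}` is a Gibbs
measure. -/
theorem result :
    ∃ μ : ProbabilityMeasure (ℤ × ℤ → Bool), IsPlusPhase βc μ ∧ IsGibbs (lineMarginal μ) := by
  obtain ⟨μ, hμ⟩ := exists_plusPhase βc_pos.le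
  exact ⟨μ, hμ, line_gibbs βc_pos sinh_βc μ (plusPhase_box hμ)⟩

end Pool.Agent.Results.MP_6ac95e_pr.CriticalLineGibbs
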